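import Pool.Agent.Lib.MP_12e153_co.Tree
import Pool.Agent.Lib.MP_12e153_co.Average

/-!
Zero-sum Ramsey numbers for trees of diameter at most four: the case of a prime modulus.
-/

set_option autoImplicit false

namespace Pool.Agent.Results.MP_12e153_co.PrimeModulus

open Finset
open scoped Classical

/-- Each symmetric colouring of the complete graph on `p + 1` vertices has a zero-sum spanning tree
of depth at most two. -/
theorem exists_tree (p : ℕ) (hp : p.Prime) (c : Fin (p + 1) → Fin (p + 1) → ZMod p)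
    (hc : ∀ a b, c a b = c b a) (hd : ∀ v, c v v = 0) :
    ∃ Q : Finset (Fin (p + 1)), ∃ r ∈ Q, ∃ g : Fin (p + 1) → Fin (p + 1),
      (∀ b ∈ Qᶜ, g b ∈ Q) ∧ ∑ q ∈ Q.erase r, c r q + ∑ b ∈ Qᶜ, c b (g b) = 0 := by
  have : Fact p.Prime := ⟨hp⟩
  by_contra hcon
  push Not at hcon
  exact Pool.Agent.Lib.MP_12e153_co.not_bad
    ⟨by simp, hc, hd, fun Q r hr g hg => hcon Q r hr g hg⟩

/-- For every prime `p` one has `R(τ_{p+1}(4), ZMod p) = R(τ_{p+1}(4), 2) = p + 1`: for every `n`,
each 2-colouring of the edges of the complete graph on `n` vertices has a monochromatic tree with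
`p` edges and diameter at most four if and only if each colouring by elements of `ZMod p` has
such a tree with colour sum zero, and both hold exactly for `n ≥ p + 1`. -/
theorem result : ∀ p : ℕ, p.Prime → ∀ n : ℕ,
    ((∀ c : Fin n → Fin n → Fin 2, (∀ a b, c a b = c b a) →
        ∃ T : SimpleGraph (Fin (p + 1)), T.IsTree ∧ T.diam ≤ 4 ∧
          ∃ f : Fin (p + 1) → Fin n, Function.Injective f ∧ ∃ col : Fin 2,
            ∀ u v : Fin (p + 1), T.Adj u v → c (f u) (f v) = col) ↔
      (∀ c : Fin n → Fin n → ZMod p, (∀ a b, c a b = c b a) →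
        ∃ T : SimpleGraph (Fin (p + 1)), T.IsTree ∧ T.diam ≤ 4 ∧
          ∃ f : Fin (p + 1) → Fin n, Function.Injective f ∧
            (∑ u : Fin (p + 1), ∑ v : Fin (p + 1),
              (if T.Adj u v ∧ u < v then c (f u) (f v) else (0 : ZMod p))) = 0)) ∧
    ((∀ c : Fin n → Fin n → ZMod p, (∀ a b, c a b = c b a) →
        ∃ T : SimpleGraph (Fin (p + 1)), T.IsTree ∧ T.diam ≤ 4 ∧
          ∃ f : Fin (p + 1) → Fin n, Function.Injective f ∧
            (∑ u : Fin (p + 1), ∑ v : Fin (p + 1),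
              (if T.Adj u v ∧ u < v then c (f u) (f v) else (0 : ZMod p))) = 0) ↔
      p + 1 ≤ n) := by
  intro p hp n
  have h1 := Pool.Agent.Lib.MP_12e153_co.twoCol_iff p n
  have h2 : Pool.Agent.Lib.MP_12e153_co.ZeroSum p n ↔ p + 1 ≤ n :=
    ⟨Pool.Agent.Lib.MP_12e153_co.le_of_zeroSum p n, fun hn =>
      Pool.Agent.Lib.MP_12e153_co.zeroSum_of p n hn (exists_tree p hp)⟩
  have h3 := h1.trans h2.symm
  unfold Pool.Agent.Lib.MP_12e153_co.TwoCol at h3
  unfold Pool.Agent.Lib.MP_12e153_co.ZeroSum at h2 h3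
  exact ⟨h3, h2⟩

end Pool.Agent.Results.MP_12e153_co.PrimeModulus
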